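import Pool.Agent.RX.RCN.FinV2

/-! MP_73ccd0_lc: random order contention resolution for matchings: the constant 0.4815 for all
graphs and all fractional matchings. -/

open Pool.Agent.RX.RCRS in
/-- For every finite simple graph `G` and every fractional matching `x` of `G` there is a random
order contention resolution scheme that selects every edge `e` with probability at least
`0.4815 x e`. -/
theorem Pool.Agent.Results.MP_73ccd0_lc.AllGraphs4815.result :
    ∀ (V : Type) [Fintype V] [DecidableEq V] (G : SimpleGraph V) [Fintype G.edgeSet]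
      [DecidableEq G.edgeSet] (x : G.edgeSet → ℝ),
      IsFractionalMatching G x →
      ∃ S : Scheme G, ∀ e : G.edgeSet, (4815 / 10000 : ℝ) * x e ≤ S.selProb x e := by
  intro V _ _ G _ _ x hx
  obtain ⟨S, hS⟩ := Pool.Agent.RX.RCN.K.final_V hx
  refine ⟨S, fun e => le_trans (mul_le_mul_of_nonneg_right ?_ (hx.1 e).1) (hS e)⟩
  have h := Pool.Agent.RX.RCN.K.cT_ge
  norm_num at h ⊢
  exact h
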