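import Pool.Agent.AVH.Main

/-! MP_73ccd0_lc: on average over the edges, random order contention resolution for matchings is
`1/2`-selectable on all graphs; on symmetric instances it is `1/2`-selectable. -/

open Pool.Agent.RCRS in
/-- For every finite graph `G` and every fractional matching `x` of `G` there is one random order
contention resolution scheme `S` such that
* for all weights `1 ≤ w e ≤ κ ≤ 5 / 4` of the edges, the expected weight of the selected edges is
  at least `1 / 2 ∑ w e x e`, with a surplus;
* if the automorphisms of `G` that preserve `x` act transitively on the edges of positive value,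
  every edge `e` is selected with probability at least `x e / 2 + x e ^ 2 / 17`;
* if they act transitively on the vertices, every vertex `v` is matched with probability at least
  half of its fractional degree, with a surplus. -/
theorem Pool.Agent.Results.MP_73ccd0_lc.AverageHalf.result :
    ∀ (V : Type) [Fintype V] [DecidableEq V] (G : SimpleGraph V) [Fintype G.edgeSet]
      [DecidableEq G.edgeSet] (x : G.edgeSet → ℝ), IsFractionalMatching G x →
      ∃ S : Scheme G,
        (∀ (κ : ℝ) (w : G.edgeSet → ℝ), 1 ≤ κ → κ ≤ 5 / 4 → (∀ e, 1 ≤ w e ∧ w e ≤ κ) →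
          1 / 2 * ∑ e, w e * x e + 4 / 17 * (5 / 4 - κ) * ∑ e, x e ^ 2
            ≤ ∑ e, w e * S.selProb x e) ∧
        ((∀ e f : G.edgeSet, 0 < x e → 0 < x f → ∃ g : G ≃g G,
            (∀ e' : G.edgeSet, x (g.mapEdgeSet e') = x e') ∧ g.mapEdgeSet e = f) →
          ∀ e, x e / 2 + x e ^ 2 / 17 ≤ S.selProb x e) ∧
        ((∀ u v : V, ∃ g : G ≃g G,
            (∀ e' : G.edgeSet, x (g.mapEdgeSet e') = x e') ∧ g u = v) →
          ∀ v : V, 1 / 2 * (∑ e : G.edgeSet, if v ∈ (e : Sym2 V) then x e else 0)
              + 1 / 17 * (∑ e : G.edgeSet, if v ∈ (e : Sym2 V) then x e ^ 2 else 0)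
            ≤ ∑ e : G.edgeSet, if v ∈ (e : Sym2 V) then S.selProb x e else 0) := by
  intro V _ _ G _ _ x hx
  exact Pool.Agent.AVH.main hx
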