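import Pool.Agent.RCRSHalf.Final2

/-! MP_73ccd0_lc: random order contention resolution for matchings in triangle-free graphs
(in particular in bipartite graphs) is `1/2`-selectable, and this is done with equality on every
edge. -/

open Pool.Agent.RCRS in
/-- For every finite triangle-free graph `G` and every fractional matching `x` of `G` there is a
random order contention resolution scheme that selects every edge `e` with probability exactly
`x e / 2`. -/
theorem Pool.Agent.Results.MP_73ccd0_lc.ExactHalfTriangleFree.result :
    ∀ (V : Type) [Fintype V] [DecidableEq V] (G : SimpleGraph V) [Fintype G.edgeSet]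
      [DecidableEq G.edgeSet] (x : G.edgeSet → ℝ),
      G.CliqueFree 3 → IsFractionalMatching G x →
      ∃ S : Scheme G, ∀ e : G.edgeSet, S.selProb x e = x e / 2 := by
  intro V _ _ G _ _ x hG hx
  exact Pool.Agent.RCRSHalf.exact_half hG hx
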