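import Pool.Agent.RZ.RCO.WinX

/-! MP_73ccd0_lc: random order contention resolution for matchings: selection probability exactly
`x e / 2` for all graphs and all fractional matchings with weights at most `1 / 12`. -/

open Pool.Agent.RZ.RCRS in
/-- For every finite simple graph `G` (triangles allowed) and every fractional matching `x` of `G`
with `x e ≤ 1 / 12` for all edges there is a random order contention resolution scheme that selects
every edge `e` with probability exactly `x e / 2`. -/
theorem Pool.Agent.Results.MP_73ccd0_lc.ExactHalfWeightsTwelfth.result :
    ∀ (V : Type) [Fintype V] [DecidableEq V] (G : SimpleGraph V) [Fintype G.edgeSet]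
      [DecidableEq G.edgeSet] (x : G.edgeSet → ℝ),
      IsFractionalMatching G x → (∀ e, x e ≤ 1 / 12) →
      ∃ S : Scheme G, ∀ e : G.edgeSet, S.selProb x e = x e / 2 := by
  intro V _ _ G _ _ x hx hX
  exact Pool.Agent.RZ.RCO.WinX.half12 V G x hx hX
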